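import Pool.Agent.H45.EGH.S3

/-!
# EGH: GRO, growth in all degrees, at most six quadrics
-/

set_option autoImplicit false

namespace Pool.EGH.Gro

theorem num2 : ∀ h2 < 7, ∀ h3 < 5, 6 ≤ h2 + (4 - h3).choose 2 → h3 ≤ b2 h2 := by decide

theorem num3 : ∀ h3 < 11, ∀ h4 < 6, 10 ≤ h3 + (5 - h4).choose 2 → h4 ≤ b3 h3 := by decide

theorem num4 : ∀ h4 < 16, ∀ h5 < 7, 15 ≤ h4 + (6 - h5).choose 2 → h5 ≤ b4 h4 := by decide

end Pool.EGH.Gro

open Pool.EGH Pool.EGH.Gro in
/-- GRO. -/
theorem Pool.EGH.t_gro (hHE1 : HE1Stmt) (hHED : HEDStmt) (hHET : HETStmt) (hE52 : E52Stmt)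
    (hG62 : G62Stmt) (hG63 : G63Stmt) (hIMG : IMGStmt) : GROStmt := by
  intro K _ _ n Q I hn hQ hI hQI i hi
  have hle : ∀ i, hf I i ≤ n.choose i := fun i => by
    have h := (hIMG K n n Q I hQ hI hQI i).2.1
    omega
  refine ⟨hle i, ?_⟩
  have h1 := hHE1 K n n Q I hQ hI hQI
  by_cases hin : n ≤ i
  · have h2 := hle (i + 1)
    rw [Nat.choose_eq_zero_of_lt (by omega)] at h2
    omega
  by_cases hi1 : i = 1
  · subst hi1
    exact h1
  have hET : ∀ m : ℕ, m + 1 = n → hf I (m + 1) ≠ 0 → hf I m = m + 1 := by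
    intro m hm
    subst hm
    exact hHET K (m + 1) m Q I hQ hI hQI
  have hED : ∀ m : ℕ, m + 2 = n →
      (m + 2).choose 2 ≤ hf I m + (m + 2 - hf I (m + 1)).choose 2 := by
    intro m hm
    subst hm
    exact hHED K (m + 2) m Q I hQ hI hQI
  have hn2 : 3 ≤ n := by omega
  obtain rfl | rfl | rfl | rfl : n = 3 ∨ n = 4 ∨ n = 5 ∨ n = 6 := by omega
  · obtain rfl : i = 2 := by omega
    have h2 := hET 2 rfl
    have h3 := hle 3
    have h4 : Nat.choose 3 3 = 1 := by decide
    change hf I 3 ≤ b2 (hf I 2)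
    by_cases h5 : hf I 3 = 0
    · omega
    · rw [h2 h5]
      have h6 : b2 (2 + 1) = 1 := by decide
      omega
  · obtain rfl | rfl : i = 2 ∨ i = 3 := by omega
    · have h2 := hED 2 rfl
      have h3 := hle 3
      have h4 := hle 2
      have h5 : Nat.choose 4 3 = 4 := by decide
      have h6 : Nat.choose 4 2 = 6 := by decide
      exact num2 (hf I 2) (by omega) (hf I 3) (by omega) (by rw [← h6]; exact h2)
    · have h2 := hET 3 rfl
      have h3 := hle 4
      have h4 : Nat.choose 4 4 = 1 := by decide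
      change hf I 4 ≤ b3 (hf I 3)
      by_cases h5 : hf I 4 = 0
      · omega
      · rw [h2 h5]
        have h6 : b3 (3 + 1) = 1 := by decide
        omega
  · obtain rfl | rfl | rfl : i = 2 ∨ i = 3 ∨ i = 4 := by omega
    · exact hE52 K 5 Q I hQ hI hQI
    · have h2 := hED 3 rfl
      have h3 := hle 4
      have h4 := hle 3
      have h5 : Nat.choose 5 4 = 5 := by decide
      have h6 : Nat.choose 5 3 = 10 := by decide
      have h7 : Nat.choose 5 2 = 10 := by decide
      exact num3 (hf I 3) (by omega) (hf I 4) (by omega) (by rw [← h7]; exact h2)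
    · have h2 := hET 4 rfl
      have h3 := hle 5
      have h4 : Nat.choose 5 5 = 1 := by decide
      change hf I 5 ≤ b4 (hf I 4)
      by_cases h5 : hf I 5 = 0
      · omega
      · rw [h2 h5]
        have h6 : b4 (4 + 1) = 1 := by decide
        omega
  · obtain rfl | rfl | rfl | rfl : i = 2 ∨ i = 3 ∨ i = 4 ∨ i = 5 := by omega
    · exact hG62 K Q I hQ hI hQI
    · exact hG63 K Q I hQ hI hQI
    · have h2 := hED 4 rfl
      have h3 := hle 5
      have h4 := hle 4
      have h5 : Nat.choose 6 5 = 6 := by decide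
      have h6 : Nat.choose 6 4 = 15 := by decide
      have h7 : Nat.choose 6 2 = 15 := by decide
      exact num4 (hf I 4) (by omega) (hf I 5) (by omega) (by rw [← h7]; exact h2)
    · have h2 := hET 5 rfl
      have h3 := hle 6
      have h4 : Nat.choose 6 6 = 1 := by decide
      change hf I 6 ≤ if hf I 5 = 6 then 1 else 0
      by_cases h5 : hf I 6 = 0
      · omega
      · rw [h2 h5]
        simp only [if_true, Nat.reduceAdd]
        omega
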