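import Pool.Agent.H45.EGH.S1

/-!
# EGH: HOP, bilinear maps of small target have nontrivial zeros
-/

set_option autoImplicit false

/-- HOP. -/
theorem Pool.EGH.t_hop (h1 : Pool.EGH.HPAStmt) : Pool.EGH.HOPStmt := by
  intro K _ _ V₁ V₂ W _ _ _ _ _ _ _ _ _ β h1' h2' h3'
  classical
  let b1 := Module.finBasis K V₁
  let b2 := Module.finBasis K V₂
  let b3 := Module.finBasis K W
  obtain ⟨x, y, hx, hy, h⟩ := h1 K (Module.finrank K V₁) (Module.finrank K V₂)
    (Module.finrank K W) (fun k i j => b3.repr (β (b1 i) (b2 j)) k) h1' h2' h3'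
  refine ⟨∑ i, x i • b1 i, ∑ j, y j • b2 j, ?_, ?_, ?_⟩
  · intro h0
    apply hx
    funext i
    have h4 := congrArg (fun v => b1.repr v i) h0
    simpa [Finsupp.single_apply] using h4
  · intro h0
    apply hy
    funext i
    have h4 := congrArg (fun v => b2.repr v i) h0
    simpa [Finsupp.single_apply] using h4
  · apply b3.repr.injective
    ext k
    have h4 := h k
    rw [map_zero, Finsupp.zero_apply]
    rw [← h4]
    simp only [map_sum, map_smul, LinearMap.sum_apply, LinearMap.smul_apply,
      Finsupp.coe_finsetSum, Finset.sum_apply, Finsupp.smul_apply, smul_eq_mul,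
      Finset.mul_sum]
    rw [Finset.sum_comm]
    refine Finset.sum_congr rfl fun i _ => Finset.sum_congr rfl fun j _ => ?_
    ring
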