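import Pool.Agent.H45.EGH.S1

/-!
# EGH: HPA, bilinear forms without nontrivial common zeros over an algebraically closed field

If every product `x i * y j` were algebraic over `K[β]`, the transcendence degree of the field
`K(x, y)` would be at most `c + 1`.  So some product is not in some valuation ring containing
`K[β]`; dividing by the coordinates with the largest values gives a nontrivial zero in the
residue field, and then the Nullstellensatz gives one over `K`.
-/

set_option autoImplicit false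

namespace Pool.EGH.Hpa

open MvPolynomial AlgebraicIndependent

variable {K : Type} [Field K]

theorem lem_a {F : Type} [Field F] [Algebra K F] {a b c : ℕ} (x : Fin a → F) (y : Fin b → F)
    (hxy : AlgebraicIndependent K (Sum.elim x y)) (ha : 1 ≤ a) (hb : 1 ≤ b)
    (hc : c + 2 ≤ a + b) (B : Fin c → F) :
    ∃ i j, ¬ IsAlgebraic (Algebra.adjoin K (Set.range B)) (x i * y j) := by
  classical
  by_contra hcon
  push Not at hcon
  have hmem : ∀ s : Set F, ∀ z : F, z ∈ (matroid K F).closure s ↔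
      IsAlgebraic (Algebra.adjoin K s) z := by
    intro s z
    rw [matroid_closure_eq]
    exact Iff.rfl
  have hx0 : ∀ i, x i ≠ 0 := fun i => by
    have := hxy.ne_zero (Sum.inl i)
    simpa using this
  have hy0 : ∀ j, y j ≠ 0 := fun j => by
    have := hxy.ne_zero (Sum.inr j)
    simpa using this
  set s : Set F := insert (y ⟨0, hb⟩) (Set.range B) with hs
  have h1 : ∀ i j, IsAlgebraic (Algebra.adjoin K s) (x i * y j) := by
    intro i j
    rw [← hmem]
    exact (matroid K F).closure_subset_closure (Set.subset_insert _ _) ((hmem _ _).mpr (hcon i j))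
  have h2 : IsAlgebraic (Algebra.adjoin K s) (y ⟨0, hb⟩) :=
    isAlgebraic_algebraMap (⟨y ⟨0, hb⟩, Algebra.subset_adjoin (Set.mem_insert _ _)⟩ :
      Algebra.adjoin K s)
  have hx : ∀ i, IsAlgebraic (Algebra.adjoin K s) (x i) := by
    intro i
    have h3 := (h1 i ⟨0, hb⟩).mul h2.inv
    rwa [mul_assoc, mul_inv_cancel₀ (hy0 _), mul_one] at h3
  have hy : ∀ j, IsAlgebraic (Algebra.adjoin K s) (y j) := by
    intro j
    have h3 := (h1 ⟨0, ha⟩ j).mul (hx ⟨0, ha⟩).inv
    rwa [mul_comm (x _) (y j), mul_assoc, mul_inv_cancel₀ (hx0 _), mul_one] at h3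
  have hsub : Set.range (Sum.elim x y) ⊆ (matroid K F).closure s := by
    rintro _ ⟨i | j, rfl⟩
    · exact (hmem _ _).mpr (hx i)
    · exact (hmem _ _).mpr (hy j)
  have hind : (matroid K F).Indep (Set.range (Sum.elim x y)) := by
    rw [matroid_indep_iff]
    exact hxy.to_subtype_range
  have h4 := hind.encard_le_eRk_of_subset hsub
  rw [Matroid.eRk_closure_eq] at h4
  have h5 := h4.trans ((matroid K F).eRk_le_encard s)
  have h6 : (Set.range (Sum.elim x y)).encard = ((a + b : ℕ) : ℕ∞) := by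
    rw [← Set.image_univ, hxy.injective.encard_image, Set.encard_univ]
    simp
  have h7 : s.encard ≤ ((c + 1 : ℕ) : ℕ∞) := by
    refine (Set.encard_insert_le _ _).trans ?_
    have h8 : (Set.range B).encard ≤ (c : ℕ∞) := by
      rw [← Set.image_univ]
      refine (Set.encard_image_le _ _).trans ?_
      rw [Set.encard_univ]
      simp
    push_cast
    gcongr
  rw [h6] at h5
  have h9 := h5.trans h7
  have h10 : a + b ≤ c + 1 := by exact_mod_cast h9
  omega

theorem lem_b {F : Type} [Field F] [Algebra K F] (B : Subalgebra K F) (z : F)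
    (hz : ¬ IsAlgebraic B z) : ∃ V : ValuationSubring F, (∀ u ∈ B, u ∈ V) ∧ z ∉ V := by
  have hz' : ¬ IsIntegral B z := fun h => hz h.isAlgebraic
  have h1 := iInf_valuationSubring_superset (s := (B.toSubring : Set F))
  rw [Subring.closure_eq] at h1
  have h3 : z ∉ (integralClosure B.toSubring F).toSubring := fun h => hz' h
  rw [← h1, Subring.mem_iInf] at h3
  push Not at h3
  obtain ⟨⟨V, hV⟩, hzV⟩ := h3
  exact ⟨V, fun u hu => hV hu, hzV⟩

theorem lem_d [IsAlgClosed K] {κ : Type} [Field κ] (ψ : K →+* κ) {a b c : ℕ}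
    (β : Fin c → Fin a → Fin b → K) (ξ : Fin a → κ) (η : Fin b → κ) (i0 : Fin a) (j0 : Fin b)
    (hξ : ξ i0 = 1) (hη : η j0 = 1)
    (h : ∀ k, ∑ i, ∑ j, ψ (β k i j) * ξ i * η j = 0) :
    ∃ (x : Fin a → K) (y : Fin b → K), x i0 = 1 ∧ y j0 = 1 ∧
      ∀ k, ∑ i, ∑ j, β k i j * x i * y j = 0 := by
  classical
  set θ : MvPolynomial (Fin a ⊕ Fin b) K →+* κ := eval₂Hom ψ (Sum.elim ξ η) with hθ
  have hJ : RingHom.ker θ ≠ ⊤ := RingHom.ker_ne_top θ
  obtain ⟨M, hM, hJM⟩ := Ideal.exists_le_maximal _ hJ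
  obtain ⟨p, hp⟩ := (isMaximal_iff_eq_vanishingIdeal_singleton).mp hM
  have key : ∀ f : MvPolynomial (Fin a ⊕ Fin b) K, θ f = 0 → eval p f = 0 := by
    intro f hf
    have h1 : f ∈ M := hJM ((RingHom.mem_ker).mpr hf)
    rw [hp, mem_vanishingIdeal_singleton_iff] at h1
    simpa [coe_aeval_eq_eval] using h1
  refine ⟨fun i => p (Sum.inl i), fun j => p (Sum.inr j), ?_, ?_, fun k => ?_⟩
  · have h1 := key (X (Sum.inl i0) - 1) (by simp [hθ, hξ])
    simpa [sub_eq_zero] using h1
  · have h1 := key (X (Sum.inr j0) - 1) (by simp [hθ, hη])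
    simpa [sub_eq_zero] using h1
  · have h1 := key (∑ i, ∑ j, C (β k i j) * X (Sum.inl i) * X (Sum.inr j)) (by
      simpa [hθ] using h k)
    simpa using h1

theorem lem_c [IsAlgClosed K] {F : Type} [Field F] [Algebra K F] (V : ValuationSubring F)
    (hV : ∀ r : K, algebraMap K F r ∈ V) {a b c : ℕ}
    (β : Fin c → Fin a → Fin b → K) (x : Fin a → F) (y : Fin b → F)
    (hB : ∀ k, ∑ i, ∑ j, algebraMap K F (β k i j) * x i * y j ∈ V) (i1 : Fin a) (j1 : Fin b)
    (hz : x i1 * y j1 ∉ V) :
    ∃ (x : Fin a → K) (y : Fin b → K), x ≠ 0 ∧ y ≠ 0 ∧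
      ∀ k, ∑ i, ∑ j, β k i j * x i * y j = 0 := by
  classical
  obtain ⟨i0, -, hi0⟩ := Finset.exists_max_image Finset.univ (fun i => V.valuation (x i))
    ⟨i1, Finset.mem_univ _⟩
  obtain ⟨j0, -, hj0⟩ := Finset.exists_max_image Finset.univ (fun j => V.valuation (y j))
    ⟨j1, Finset.mem_univ _⟩
  have hbig : 1 < V.valuation (x i0 * y j0) := by
    have h1 : 1 < V.valuation (x i1 * y j1) := by
      rw [← not_le, V.valuation_le_one_iff]
      exact hz
    refine h1.trans_le ?_
    rw [map_mul, map_mul]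
    exact mul_le_mul' (hi0 i1 (Finset.mem_univ _)) (hj0 j1 (Finset.mem_univ _))
  have hxy0 : x i0 * y j0 ≠ 0 := by
    intro h
    rw [h, map_zero] at hbig
    exact absurd hbig (by simp)
  have hx0 : x i0 ≠ 0 := left_ne_zero_of_mul hxy0
  have hy0 : y j0 ≠ 0 := right_ne_zero_of_mul hxy0
  have hx : ∀ i, x i / x i0 ∈ V := by
    intro i
    rw [← V.valuation_le_one_iff, map_div₀]
    exact div_le_one_of_le₀ (hi0 i (Finset.mem_univ _)) zero_le
  have hy : ∀ j, y j / y j0 ∈ V := by
    intro j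
    rw [← V.valuation_le_one_iff, map_div₀]
    exact div_le_one_of_le₀ (hj0 j (Finset.mem_univ _)) zero_le
  set φ : K →+* V := (algebraMap K F).codRestrict V hV with hφ
  set ρ : V →+* IsLocalRing.ResidueField V := IsLocalRing.residue V with hρ
  set ξ : Fin a → V := fun i => ⟨x i / x i0, hx i⟩ with hξd
  set η : Fin b → V := fun j => ⟨y j / y j0, hy j⟩ with hηd
  obtain ⟨u, w, hu, hw, h⟩ := lem_d (ρ.comp φ) β (fun i => ρ (ξ i)) (fun j => ρ (η j)) i0 j0
    (by
      have : ξ i0 = 1 := by
        apply Subtype.ext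
        simp [hξd, hx0]
      simp [this])
    (by
      have : η j0 = 1 := by
        apply Subtype.ext
        simp [hηd, hy0]
      simp [this])
    (fun k => by
      have h1 : ∑ i, ∑ j, (ρ.comp φ) (β k i j) * ρ (ξ i) * ρ (η j) =
          ρ (∑ i, ∑ j, φ (β k i j) * ξ i * η j) := by
        simp only [map_sum, map_mul, RingHom.comp_apply]
      rw [h1, IsLocalRing.residue_eq_zero_iff, V.valuation_lt_one_iff]
      have h2 : ((∑ i, ∑ j, φ (β k i j) * ξ i * η j : V) : F) =
          (∑ i, ∑ j, algebraMap K F (β k i j) * x i * y j) / (x i0 * y j0) := by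
        push_cast
        rw [Finset.sum_div]
        refine Finset.sum_congr rfl fun i _ => ?_
        rw [Finset.sum_div]
        refine Finset.sum_congr rfl fun j _ => ?_
        simp only [hξd, hηd, hφ]
        change algebraMap K F (β k i j) * (x i / x i0) * (y j / y j0) = _
        field_simp
      rw [h2, map_div₀]
      have h3 := hB k
      rw [← V.valuation_le_one_iff] at h3
      exact (div_lt_one₀ (zero_lt_one.trans hbig)).mpr (h3.trans_lt hbig))
  refine ⟨u, w, ?_, ?_, h⟩
  · intro h0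
    rw [h0] at hu
    exact zero_ne_one hu
  · intro h0
    rw [h0] at hw
    exact zero_ne_one hw

end Pool.EGH.Hpa

/-- HPA. -/
theorem Pool.EGH.t_hpa : Pool.EGH.HPAStmt := by
  intro K _ _ a b c β ha hb hc
  classical
  let R := MvPolynomial (Fin a ⊕ Fin b) K
  let F := FractionRing R
  let x : Fin a → F := fun i => algebraMap R F (MvPolynomial.X (Sum.inl i))
  let y : Fin b → F := fun j => algebraMap R F (MvPolynomial.X (Sum.inr j))
  have hxy : AlgebraicIndependent K (Sum.elim x y) := by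
    have h1 : AlgebraicIndependent K (MvPolynomial.X : Fin a ⊕ Fin b → R) :=
      MvPolynomial.algebraicIndependent_X _ _
    have h2 := h1.map' (f := IsScalarTower.toAlgHom K R F) (IsFractionRing.injective R F)
    convert h2 using 1
    funext s
    rcases s with i | j <;> rfl
  obtain ⟨i1, j1, hz⟩ := Pool.EGH.Hpa.lem_a x y hxy ha hb hc
    (fun k => ∑ i, ∑ j, algebraMap K F (β k i j) * x i * y j)
  obtain ⟨V, hV, hzV⟩ := Pool.EGH.Hpa.lem_b _ _ hz
  exact Pool.EGH.Hpa.lem_c V (fun r => hV _ (Subalgebra.algebraMap_mem _ r)) β x y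
    (fun k => hV _ (Algebra.subset_adjoin ⟨k, rfl⟩)) i1 j1 hzV
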