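import Pool.Agent.H45.EGH.S3

/-!
# EGH: ZE3, the dual generator of the quotient by three linear forms with few quadrics
-/

set_option autoImplicit false

namespace Pool.EGH.Ze3

variable {K : Type} [Field K] {N : ℕ} {Q : Ideal (PR K N)}

theorem mem_gp {i : ℕ} {y : PR K N ⧸ Q} :
    y ∈ gp Q i ↔ ∃ f ∈ fm K N i, Ideal.Quotient.mk Q f = y := Iff.rfl

theorem mem_upI {V : Submodule K (PR K N ⧸ Q)} {f : PR K N} :
    f ∈ upI Q V ↔ Ideal.Quotient.mk Q f ∈ Ideal.span (V : Set (PR K N ⧸ Q)) := Iff.rfl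

theorem le_upI (V : Submodule K (PR K N ⧸ Q)) : Q ≤ upI Q V := by
  intro f hf
  rw [mem_upI, Ideal.Quotient.eq_zero_iff_mem.mpr hf]
  exact zero_mem _

theorem mem_ann {j : ℕ} {V : Submodule K (PR K N ⧸ Q)} {y : PR K N ⧸ Q} :
    y ∈ ann Q j V ↔ y ∈ gp Q j ∧ ∀ v ∈ V, y * v = 0 := Iff.rfl

end Pool.EGH.Ze3

open Pool.EGH Pool.EGH.Ze3 in
/-- ZE3. -/
theorem Pool.EGH.t_ze3 (hQE : QE3Stmt) (hANN : ANNStmt) (hDAN : DANStmt) (hANM : ANMStmt)
    (hGOR : GORStmt) (hGPM : GPMStmt) (hGPD : GPDStmt) (hCHF : CHFStmt) (hIMG : IMGStmt)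
    (hHGA : HGAStmt) : ZE3Stmt := by
  intro K _ _ Q C hQ hC hC3 hC12
  obtain ⟨hM, hD⟩ := hQE K Q C hQ hC hC3 hC12
  obtain ⟨hfin, hmul, h0, hmk⟩ := hGPM K 6 Q
  have hfg : ∀ i, Module.Finite K ↥(gp Q i) := hfin
  set I : Ideal (PR K 6) := upI Q C with hI
  have hHg : Hg I := (hHGA K 6).2.2.2 3 3 I hM
  have hhf : hf I 3 = 1 := by
    rw [hCHF K 6 3 3 I (by norm_num) hM]
    rfl
  have hC2 : gp Q 2 * C ≤ gp Q 3 := by
    have h1 := hmul 2 1
    rw [← h1]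
    exact Submodule.mul_le.mpr fun m hm n hn => Submodule.mul_mem_mul hm (hC hn)
  -- the degree three part
  have him : im Q I 3 = gp Q 2 * C := by
    apply le_antisymm
    · rintro _ ⟨f, ⟨hf1, hf2⟩, rfl⟩
      exact (hD 2 f hf2).mp hf1
    · intro y hy
      obtain ⟨f, hf, rfl⟩ := mem_gp.mp (hC2 hy)
      exact ⟨f, ⟨(hD 2 f hf).mpr hy, hf⟩, rfl⟩
  have h19 : Module.finrank K ↥(gp Q 2 * C) = 19 := by
    have h1 := (hIMG K 6 6 Q I hQ hHg (le_upI C) 3).2.1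
    rw [him, hhf] at h1
    have h2 : Nat.choose 6 3 = 20 := by decide
    omega
  have h1 : Module.finrank K ↥(ann Q 3 C) = 1 := by
    have h2 := hANN K 6 6 Q hQ 1 3 2 (by norm_num) C hC
    have h3 : Nat.choose 6 3 = 20 := by decide
    omega
  obtain ⟨⟨ζ, hζ⟩, hζ0, hζs⟩ := finrank_eq_one_iff'.mp h1
  have hζ1 : ζ ∈ gp Q 3 := (mem_ann.mp hζ).1
  have hζ2 : ∀ c ∈ C, ζ * c = 0 := (mem_ann.mp hζ).2
  -- elements of degree 3 killing `ζ`
  have key : ∀ y ∈ gp Q 3, y * ζ = 0 → y ∈ gp Q 2 * C := by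
    intro y hy hyz
    have h2 := hDAN K 6 6 Q hQ 3 3 (by norm_num) (gp Q 2 * C) hC2
    rw [hANM K 6 6 Q hQ 1 3 2 (by norm_num) C hC] at h2
    rw [← h2, mem_ann]
    refine ⟨hy, fun v hv => ?_⟩
    obtain ⟨a, ha⟩ := hζs ⟨v, hv⟩
    have h3 : v = a • ζ := (congrArg Subtype.val ha).symm
    rw [h3, mul_smul_comm, hyz, smul_zero]
  have key2 : ∀ g ∈ fm K 6 2, Ideal.Quotient.mk Q g * ζ = 0 → g ∈ I := by
    intro g hg hgz
    refine hGOR K 6 3 3 I hM (by norm_num) 2 (by norm_num) g hg fun l hl => ?_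
    have h2 : l * g ∈ fm K 6 3 := by
      have := MvPolynomial.IsHomogeneous.mul hl hg
      exact this
    refine (hD 2 _ h2).mpr (key _ (hmk 3 _ h2) ?_)
    rw [map_mul, mul_assoc, hgz, mul_zero]
  have key1 : ∀ g ∈ fm K 6 1, Ideal.Quotient.mk Q g * ζ = 0 → g ∈ I := by
    intro g hg hgz
    refine hGOR K 6 3 3 I hM (by norm_num) 1 (by norm_num) g hg fun l hl => ?_
    have h2 : l * g ∈ fm K 6 2 := by
      have := MvPolynomial.IsHomogeneous.mul hl hg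
      exact this
    refine key2 _ h2 ?_
    rw [map_mul, mul_assoc, hgz, mul_zero]
  have hb : ∀ x ∈ gp Q 1, x * ζ = 0 → x ∈ C := by
    intro x hx hxz
    obtain ⟨f, hf, rfl⟩ := mem_gp.mp hx
    have h2 := (hD 0 f hf).mp (key1 f hf hxz)
    rwa [h0] at h2
  refine ⟨ζ, hζ1, fun c hc => ?_, hb, ?_, ?_⟩
  · rw [mul_comm]
    exact hζ2 c hc
  · intro y hy hyz
    obtain ⟨f, hf, rfl⟩ := mem_gp.mp hy
    exact (hD 1 f hf).mp (key2 f hf hyz)
  · have h4 : Module.finrank K ↥(ann Q 4 C) = 3 := by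
      have h2 := hANN K 6 6 Q hQ 1 4 1 (by norm_num) C hC
      have h3 : Nat.choose 6 4 = 15 := by decide
      omega
    have hfA : Module.Finite K ↥(ann Q 4 C) :=
      Submodule.finiteDimensional_of_le (S₂ := gp Q 4) fun y hy => (mem_ann.mp hy).1
    have hfC : Module.Finite K ↥C := Submodule.finiteDimensional_of_le hC
    let T : ↥(gp Q 1) →ₗ[K] PR K 6 ⧸ Q := (LinearMap.mulRight K ζ).domRestrict (gp Q 1)
    have hT : ∀ x : ↥(gp Q 1), T x = (x : PR K 6 ⧸ Q) * ζ := fun x => rfl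
    have h5 : LinearMap.range T ≤ ann Q 4 C := by
      rintro _ ⟨x, rfl⟩
      rw [hT, mem_ann]
      refine ⟨?_, fun v hv => ?_⟩
      · rw [← hmul 1 3]
        exact Submodule.mul_mem_mul x.2 hζ1
      · rw [mul_assoc, hζ2 v hv, mul_zero]
    have h6 : Module.finrank K ↥(LinearMap.ker T) ≤ 3 := by
      rw [← hC3, ← Submodule.finrank_map_subtype_eq]
      refine Submodule.finrank_mono ?_
      rintro _ ⟨x, hx, rfl⟩
      exact hb _ x.2 ((hT x).symm.trans (LinearMap.mem_ker.mp hx))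
    have h7 := LinearMap.finrank_range_add_finrank_ker T
    have h8 : Module.finrank K ↥(gp Q 1) = 6 := by
      rw [(hGPD K 6 Q).2 6 hQ 1]
      rfl
    have h9 : LinearMap.range T = ann Q 4 C :=
      Submodule.eq_of_le_of_finrank_le h5 (by omega)
    intro y hy
    rw [← h9] at hy
    obtain ⟨x, hx⟩ := hy
    exact ⟨x, x.2, hx.symm⟩
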